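import Pool.Agent.P.MP_dfe42f_co.HgZ

open SimpleGraph in
/-- `u = 1`, `H` has at least two vertices and a dominating vertex `c`, `ω` large in terms of `H`,
`Δ = (ω - 1) m`, `L = T_ω(ω m)`: the maximum number of copies of `H` equals the number in
`⌊n / |L|⌋` copies of `L` together with the Turán graph `T_ω` on the remaining vertices, for all
`m ≥ m₀` and all `n`, exactly when `H` has at least four vertices and minimum degree at least
two. -/
theorem Pool.Agent.Results.MP_dfe42f_co.Classification.result (h : ℕ) (H : SimpleGraph (Fin h))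
    (c : Fin h) (hc : ∀ v, v ≠ c → H.Adj c v) (hn : 2 ≤ h) :
    ∃ ω₀ : ℕ, ∀ ω ≥ ω₀, ∀ m₀ ≥ 1, ((∀ m ≥ m₀, ∀ n : ℕ,
      IsGreatest {k | ∃ G : SimpleGraph (Fin n), G.CliqueFree (ω + 1) ∧
          (∀ v, (G.neighborSet v).ncard ≤ (ω - 1) * m) ∧ G.copyCount H = k}
        (n / (ω * m) * (turanGraph (ω * m) ω).copyCount H +
          (turanGraph (n % (ω * m)) ω).copyCount H)) ↔
      4 ≤ h ∧ ∀ v, 2 ≤ (H.neighborSet v).ncard) := by
  simpa only [Fintype.card_fin] using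
    Pool.Agent.GL3.classification (H := H) (by rwa [Fintype.card_fin]) hc

open SimpleGraph in
/-- The earlier hand-in (links with a 2-factor) is an instance. -/
theorem Pool.Agent.Results.MP_dfe42f_co.Classification.twoFactor (h : ℕ)
    (H F : SimpleGraph (Fin h)) (c : Fin h) (hc : ∀ v, v ≠ c → H.Adj c v) (hn : ∃ v, v ≠ c)
    (hF : F ≤ H) (h0 : ∀ v, ¬ F.Adj c v) (h2 : ∀ v, v ≠ c → (F.neighborSet v).ncard = 2) :
    ∃ ω₀ : ℕ, ∀ ω ≥ ω₀, ∀ m ≥ 1, ∀ n : ℕ,
      IsGreatest {k | ∃ G : SimpleGraph (Fin n), G.CliqueFree (ω + 1) ∧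
          (∀ v, (G.neighborSet v).ncard ≤ (ω - 1) * m) ∧ G.copyCount H = k}
        (n / (ω * m) * (turanGraph (ω * m) ω).copyCount H +
          (turanGraph (n % (ω * m)) ω).copyCount H) := by
  obtain ⟨v, hv⟩ := hn
  obtain ⟨x, y, xy, e⟩ := Set.ncard_eq_two.1 (h2 v hv)
  have hx : F.Adj v x := (Set.ext_iff.1 e x).2 (by simp)
  have hy : F.Adj v y := (Set.ext_iff.1 e y).2 (by simp)
  have cx : x ≠ c := fun e => h0 v (e ▸ hx.symm)
  have cy : y ≠ c := fun e => h0 v (e ▸ hy.symm)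
  have h4 : 4 ≤ h := by
    have := Finset.card_le_univ ({c, v, x, y} : Finset (Fin h))
    rwa [Fintype.card_fin, Finset.card_insert_of_notMem (by simp [hv.symm, cx.symm, cy.symm]),
      Finset.card_insert_of_notMem (by simp [hx.ne, hy.ne]), Finset.card_pair xy] at this
  obtain ⟨w, hw⟩ := result h H c hc (by omega)
  refine ⟨w, fun ω hω => (hw ω hω 1 le_rfl).2 ⟨h4, fun u => ?_⟩⟩
  by_cases hu : u = c
  · exact hu ▸ (Set.one_lt_ncard (Set.toFinite _)).2 ⟨x, hc x cx, y, hc y cy, xy⟩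
  · exact h2 u hu ▸ Set.ncard_le_ncard (fun _ a => hF a) (Set.toFinite _)
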