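import Pool.Agent.P.MP_dfe42f_co.Small

open SimpleGraph in
/-- Triangles (`H = K₃`, `u = 1`): for every clique bound `ω ≥ 3` there are `0 < c < m` such that,
with `Δ = (ω - 1) (m k)`, `L = T_ω(ω m k)` and `n = a |L| + ω c k`, some `K_(ω+1)`-free graph on
`n` vertices with maximum degree at most `Δ` has at least `k ^ 3` more triangles than `a` copies
of `L` together with the Turán graph `T_ω` on the remaining `ω c k` vertices. -/
theorem Pool.Agent.Results.MP_dfe42f_co.RemainderFails.result (ω : ℕ) (hω : 3 ≤ ω) :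
    ∃ m c : ℕ, 0 < c ∧ c < m ∧ ∀ a k : ℕ, 1 ≤ a →
      ∃ G : SimpleGraph (Fin (a * (ω * (m * k)) + ω * (c * k))),
        G.CliqueFree (ω + 1) ∧ (∀ v, (G.neighborSet v).ncard ≤ (ω - 1) * (m * k)) ∧
        a * ((turanGraph (ω * (m * k)) ω).cliqueSet 3).ncard +
          ((turanGraph (ω * (c * k)) ω).cliqueSet 3).ncard + k ^ 3 ≤ (G.cliqueSet 3).ncard := by
  rcases Nat.lt_or_ge ω 5 with h | h
  · interval_cases ω
    · refine ⟨5, 3, by norm_num, by norm_num, fun a k ha => ?_⟩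
      obtain ⟨a, rfl⟩ : ∃ a', a = a' + 1 := ⟨a - 1, by omega⟩
      exact GTur.of_base (y := 1) (s := 2) GTur.good_ico (by norm_num) (by norm_num)
        (by norm_num) a k
    · refine ⟨32, 7, by norm_num, by norm_num, fun a k ha => ?_⟩
      obtain ⟨a, rfl⟩ : ∃ a', a = a' + 1 := ⟨a - 1, by omega⟩
      exact GTur.of_base (y := 2) (s := 12) GTur.good_cir (by norm_num) (by norm_num)
        (by norm_num) a k
  · obtain ⟨z, rfl⟩ : ∃ z, ω = z + 3 + 2 := ⟨ω - 5, by omega⟩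
    refine ⟨(3 * z + 10) * (z + 5), z ^ 2 + 7 * z + 14, by positivity, by nlinarith,
      fun a k ha => ?_⟩
    obtain ⟨a, rfl⟩ : ∃ a', a = a' + 1 := ⟨a - 1, by omega⟩
    refine GTur.of_base (y := z + 3) (s := (z + 4) * (z + 5)) (GTur.good_U (z + 2))
      (le_of_eq (by ring)) (by ring) ?_ a k
    have e : ((z + 4) * (z + 5)) ^ 3 * (16 * ((z + 2 + 2) * (z + 2 + 1) * (z + 2)) +
        12 * ((z + 2 + 2) * (z + 2 + 2) * (z + 2 + 1))) =
        (((3 * z + 10) * (z + 5)) ^ 3 + (z ^ 2 + 7 * z + 14) ^ 3) *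
          ((z + 3 + 2) * (z + 3 + 1) * (z + 3)) +
          16 * ((z + 1) * (z + 3) * (z + 4) ^ 3 * (z + 5)) := by ring
    have : 0 < (z + 1) * (z + 3) * (z + 4) ^ 3 * (z + 5) := by positivity
    rw [e]
    omega
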