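import Pool.Agent.P.MP_dfe42f_co.TfAll

open Pool.Agent.TFD

namespace Pool.Agent.Results.MP_dfe42f_co.Stars

theorem result (s ω Δ n : ℕ) (hω : 2 ≤ ω) (hΔ : ω ≤ Δ) (hd : ω - 1 ∣ Δ) (hn : Δ < n)
    (H : SimpleGraph (Fin (s + 1))) (hH : H.CliqueFree 3) (hc : ∃ c, ∀ w ≠ c, H.Adj c w) :
    IsGreatest {N | ∃ G : SimpleGraph (Fin n), G.CliqueFree (ω + 1) ∧
        (∀ v, (G.neighborSet v).ncard ≤ Δ) ∧ G.copyCount H = N}
      (starVal s ω Δ n / (if s = 1 then 2 else 1)) :=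
  main_all hω hΔ hd hn H hH hc

end Pool.Agent.Results.MP_dfe42f_co.Stars
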